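import Pool.Agent.H45.UZ.TarP

/-!
# Board uz_modules, module PSJ: numbers of L-stages, the stages of labels
-/

set_option linter.unusedVariables false

open Ordinal Order Set
open scoped ZFSet

namespace SE.UZ

open SF

theorem psj_cn_eq (b : BS) (D : Cx) (F : Fam) (e : Ordinal.{0}) :
    b.cn D F e = ⨆ d : {d : Iio e // b.Ls D F d.1}, succ (b.cn D F d.1.1) := by
  rw [BS.cn]

theorem psj_succ_le (b : BS) (D : Cx) (F : Fam) {d e : Ordinal.{0}} (hd : d < e)
    (h : b.Ls D F d) : succ (b.cn D F d) ≤ b.cn D F e := by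
  rw [psj_cn_eq b D F e]
  exact Ordinal.le_iSup (fun d : {d : Iio e // b.Ls D F d.1} => succ (b.cn D F d.1.1))
    ⟨⟨d, hd⟩, h⟩

theorem psj_le (b : BS) (D : Cx) (F : Fam) {e a : Ordinal.{0}}
    (h : ∀ d < e, b.Ls D F d → succ (b.cn D F d) ≤ a) : b.cn D F e ≤ a := by
  rw [psj_cn_eq b D F e]
  exact Ordinal.iSup_le (fun d => h d.1.1 d.1.2 d.2)

theorem psj_lt (b : BS) (D : Cx) (F : Fam) {e a : Ordinal.{0}} (h : a < b.cn D F e) :
    ∃ d < e, b.Ls D F d ∧ a ≤ b.cn D F d := by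
  by_contra hcon
  push Not at hcon
  exact absurd h (not_lt.2 (psj_le b D F (fun d hd hL => succ_le_of_lt (hcon d hd hL))))

theorem psj1 (b : BS) (D : Cx) (F : Fam) (e : Ordinal.{0}) : b.cn D F e ≤ e := by
  induction e using WellFoundedLT.induction with
  | ind e ih => exact psj_le b D F (fun d hd _ => succ_le_of_lt (lt_of_le_of_lt (ih d hd) hd))

theorem psj2 (b : BS) (D : Cx) (F : Fam) {e e' : Ordinal.{0}} (h : e ≤ e') :
    b.cn D F e ≤ b.cn D F e' :=
  psj_le b D F (fun _ hd hL => psj_succ_le b D F (lt_of_lt_of_le hd h) hL)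

theorem psj3 (b : BS) (D : Cx) (F : Fam) {e e' : Ordinal.{0}} (hL : b.Ls D F e) (h : e < e') :
    b.cn D F e < b.cn D F e' :=
  lt_of_lt_of_le (lt_succ _) (psj_succ_le b D F h hL)

theorem psj4 (b : BS) (D : Cx) (F : Fam) {e e' : Ordinal.{0}} (hL : b.Ls D F e)
    (hL' : b.Ls D F e') (h : b.cn D F e = b.cn D F e') : e = e' := by
  rcases lt_trichotomy e e' with h1 | h1 | h1
  · exact absurd (psj3 b D F hL h1) (by rw [h]; exact lt_irrefl _)
  · exact h1
  · exact absurd (psj3 b D F hL' h1) (by rw [h]; exact lt_irrefl _)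

theorem psj5 (b : BS) (D : Cx) (F : Fam) (σ ζ : Ordinal.{0}) (h : ζ < b.cn D F σ) :
    ∃ e < σ, b.Ls D F e ∧ b.cn D F e = ζ := by
  induction σ using WellFoundedLT.induction with
  | ind σ ih =>
    obtain ⟨d, hd, hL, hle⟩ := psj_lt b D F h
    rcases eq_or_lt_of_le hle with h1 | h1
    · exact ⟨d, hd, hL, h1.symm⟩
    · obtain ⟨e, he, hLe, hc⟩ := ih d hd h1
      exact ⟨e, he.trans hd, hLe, hc⟩

theorem psj_mem (b : BS) (D : Cx) (F : Fam) (σ : Ordinal.{0}) (t : V) :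
    b.sj D F σ t = σ ∨ (b.Ls D F (b.sj D F σ t) ∧ (b.cn D F (b.sj D F σ t)).toZFSet = t) := by
  have hne : ({e | e = σ ∨ (b.Ls D F e ∧ (b.cn D F e).toZFSet = t)} : Set Ordinal.{0}).Nonempty :=
    ⟨σ, Or.inl rfl⟩
  exact csInf_mem hne

theorem psj7 (b : BS) (D : Cx) (F : Fam) (σ : Ordinal.{0}) (t : V) : b.sj D F σ t ≤ σ :=
  csInf_le' (Or.inl rfl)

theorem psj_sle (b : BS) (D : Cx) (F : Fam) (σ e : Ordinal.{0}) (t : V) (hL : b.Ls D F e)
    (ht : (b.cn D F e).toZFSet = t) : b.sj D F σ t ≤ e :=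
  csInf_le' (Or.inr ⟨hL, ht⟩)

theorem psj8 (b : BS) (D : Cx) (F : Fam) (σ : Ordinal.{0}) (t : V) (h : b.sj D F σ t < σ) :
    b.Ls D F (b.sj D F σ t) ∧ (b.cn D F (b.sj D F σ t)).toZFSet = t := by
  rcases psj_mem b D F σ t with h1 | h1
  · exact absurd h1 h.ne
  · exact h1

theorem psj10 (b : BS) (D : Cx) (F : Fam) (σ e : Ordinal.{0}) (t : V) (hL : b.Ls D F e)
    (ht : (b.cn D F e).toZFSet = t) : b.sj D F σ t = min σ e := by
  apply le_antisymm (le_min (psj7 b D F σ t) (psj_sle b D F σ e t hL ht))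
  rcases psj_mem b D F σ t with h1 | ⟨h1, h2⟩
  · rw [h1]
    exact min_le_left _ _
  · have := psj4 b D F h1 hL (toZFSet_injective (h2.trans ht.symm))
    rw [this]
    exact min_le_right _ _

theorem psj9 (b : BS) (D : Cx) (F : Fam) (σ σ' : Ordinal.{0}) (t : V) (h : σ ≤ σ') :
    b.sj D F σ t = min σ (b.sj D F σ' t) := by
  apply le_antisymm
  · refine le_min (psj7 b D F σ t) ?_
    rcases psj_mem b D F σ' t with h1 | ⟨h1, h2⟩
    · rw [h1]
      exact (psj7 b D F σ t).trans h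
    · exact psj_sle b D F σ _ t h1 h2
  · rcases psj_mem b D F σ t with h1 | ⟨h1, h2⟩
    · rw [h1]
      exact min_le_left _ _
    · exact (min_le_right _ _).trans (psj_sle b D F σ' _ t h1 h2)

theorem psj11 (b : BS) (D : Cx) (F : Fam) (σ e : Ordinal.{0}) (t : V) (hL : b.Ls D F e)
    (ht : t ∈ (succ (b.cn D F e)).toZFSet) : b.sj D F σ t ≤ e := by
  obtain ⟨ζ, hζ, rfl⟩ := mem_toZFSet_iff.1 ht
  rcases eq_or_lt_of_le (lt_succ_iff.1 hζ) with h1 | h1
  · exact psj_sle b D F σ e _ hL (by rw [h1])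
  · obtain ⟨e', he', hL', hc⟩ := psj5 b D F e ζ h1
    exact (psj_sle b D F σ e' _ hL' (by rw [hc])).trans he'.le

theorem psj12 (b : BS) (D : Cx) (F : Fam) (σ e : Ordinal.{0}) (t : V) (hL : b.Ls D F e)
    (he : e < σ) (hs : b.sj D F σ t ≤ e) : t ∈ (succ (b.cn D F e)).toZFSet := by
  obtain ⟨_, h2⟩ := psj8 b D F σ t (lt_of_le_of_lt hs he)
  rw [← h2, toZFSet_mem_toZFSet_iff, lt_succ_iff]
  exact psj2 b D F hs

theorem pf_psj : T_PSJ := by
  intro b D F
  refine ⟨psj1 b D F, fun e e' h => psj2 b D F h, fun e e' hL h => psj3 b D F hL h,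
    fun e e' hL hL' h => psj4 b D F hL hL' h, psj5 b D F, ?_, psj7 b D F, psj8 b D F,
    psj9 b D F, psj10 b D F, psj11 b D F, psj12 b D F⟩
  intro σ
  by_cases hL : b.Ls D F σ
  · right
    refine ⟨hL, le_antisymm ?_ (psj_succ_le b D F (lt_succ σ) hL)⟩
    exact psj_le b D F (fun d hd _ => succ_le_succ (psj2 b D F (lt_succ_iff.1 hd)))
  · left
    apply le_antisymm _ (psj2 b D F (le_succ σ))
    refine psj_le b D F (fun d hd hLd => ?_)
    rcases eq_or_lt_of_le (lt_succ_iff.1 hd) with h1 | h1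
    · rw [h1] at hLd
      exact absurd hLd hL
    · exact psj_succ_le b D F h1 hLd

end SE.UZ
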