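import Pool.Agent.H45.UZ.TarP

/-!
# Board uz_modules, module PWE: the equation of the recursion for worlds
-/

set_option linter.unusedVariables false

open Ordinal Order Set
open scoped ZFSet

namespace SE.UZ

open SF

theorem pwe_ew (b : BS) (D : Cx) {F F' : Fam} {e : Ordinal.{0}} (h : F e = F' e)
    (B t G B' t' G' : V) : b.Ew D F e B t G B' t' G' → b.Ew D F' e B t G B' t' G' := by
  rintro ⟨h1, h2, h3, h4⟩
  exact ⟨h ▸ h1, h2, h3, h4⟩

theorem pwe_kb (b : BS) (D : Cx) {F F' : Fam} {e : Ordinal.{0}} (h : F e = F' e)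
    (B t G X y : V) : b.Kb D F e B t G X y → b.Kb D F' e B t G X y := by
  rintro ⟨B', t', G', h1, h2⟩
  exact ⟨B', t', G', pwe_ew b D h _ _ _ _ _ _ h1, h2⟩

theorem pwe_nn (b : BS) (D : Cx) {F F' : Fam} {e : Ordinal.{0}} (h : F e = F' e)
    (B t G X : V) : b.Nn D F e B t G X → b.Nn D F' e B t G X := by
  rintro ⟨B', t', G', y, h1, h2, h3, h4⟩
  exact ⟨B', t', G', y, pwe_ew b D h _ _ _ _ _ _ h1, h2, h3,
    fun h5 => h4 (pwe_kb b D h.symm _ _ _ _ _ h5)⟩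

theorem pwe_rg (b : BS) (D : Cx) {F F' : Fam} {e : Ordinal.{0}} (h : F e = F' e)
    (B t G X : V) : b.Rg D F e B t G X → b.Rg D F' e B t G X := by
  rintro ⟨h1, y, h2, h3⟩
  exact ⟨fun h4 => h1 (pwe_nn b D h.symm _ _ _ _ h4), y, h2,
    fun h4 => h3 (pwe_kb b D h.symm _ _ _ _ _ h4)⟩

theorem pwe_ls (b : BS) (D : Cx) {F F' : Fam} {e : Ordinal.{0}} (h : F e = F' e) :
    b.Ls D F e → b.Ls D F' e := by
  intro h1 B t h2 G h3 X h4 h5 h6
  exact h1 B t (h.symm ▸ h2) G h3 X h4 h5 (pwe_rg b D h.symm _ _ _ _ h6)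

theorem pwe_cn_le (b : BS) (D : Cx) {F F' : Fam} {σ : Ordinal.{0}}
    (h : ∀ e < σ, F e = F' e) : ∀ e ≤ σ, b.cn D F e ≤ b.cn D F' e := by
  intro e
  induction e using WellFoundedLT.induction with
  | ind e ih =>
    intro he
    rw [BS.cn]
    apply Ordinal.iSup_le
    rintro ⟨⟨d, hd⟩, hL⟩
    have hd' : d < e := hd
    have h1 := ih d hd' (hd'.le.trans he)
    have h2 := pwe_ls b D (h d (lt_of_lt_of_le hd' he)) hL
    refine le_trans (succ_le_succ h1) ?_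
    rw [BS.cn.eq_def b D F' e]
    exact Ordinal.le_iSup (fun d : {d : Iio e // b.Ls D F' d.1} => succ (b.cn D F' d.1.1))
      ⟨⟨d, hd⟩, h2⟩

theorem pwe_cn (b : BS) (D : Cx) {F F' : Fam} {σ : Ordinal.{0}}
    (h : ∀ e < σ, F e = F' e) (e : Ordinal.{0}) (he : e ≤ σ) : b.cn D F e = b.cn D F' e :=
  le_antisymm (pwe_cn_le b D h e he) (pwe_cn_le b D (fun e he => (h e he).symm) e he)

theorem pwe_sj_le (b : BS) (D : Cx) {F F' : Fam} {σ : Ordinal.{0}}
    (h : ∀ e < σ, F e = F' e) (t : V) : b.sj D F' σ t ≤ b.sj D F σ t := by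
  have hne : ({e | e = σ ∨ (b.Ls D F e ∧ (b.cn D F e).toZFSet = t)} : Set Ordinal.{0}).Nonempty :=
    ⟨σ, Or.inl rfl⟩
  have hm : b.sj D F σ t = σ ∨
      (b.Ls D F (b.sj D F σ t) ∧ (b.cn D F (b.sj D F σ t)).toZFSet = t) := csInf_mem hne
  have hle : b.sj D F σ t ≤ σ := csInf_le' (Or.inl rfl)
  rcases eq_or_lt_of_le hle with h1 | h1
  · rw [h1]
    exact csInf_le' (Or.inl rfl)
  · rcases hm with h2 | ⟨h2, h3⟩
    · exact absurd h2 h1.ne
    · apply csInf_le'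
      right
      exact ⟨pwe_ls b D (h _ h1) h2, by rw [← pwe_cn b D h _ h1.le]; exact h3⟩

theorem pwe_sj (b : BS) (D : Cx) {F F' : Fam} {σ : Ordinal.{0}}
    (h : ∀ e < σ, F e = F' e) (t : V) : b.sj D F σ t = b.sj D F' σ t :=
  le_antisymm (pwe_sj_le b D (fun e he => (h e he).symm) t) (pwe_sj_le b D h t)

theorem pwe_iw (b : BS) (D : Cx) {F F' : Fam} {σ : Ordinal.{0}}
    (h : ∀ e < σ, F e = F' e) (B t : V) : b.Iw D F σ B t → b.Iw D F' σ B t := by
  rintro ⟨wo, w0, w1, w2, w2', w3⟩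
  refine ⟨wo, ?_, w1, ?_, ?_, ?_⟩
  · intro j hj hc
    rw [← pwe_sj b D h]
    exact w0 j hj hc
  · intro e he hL G hG X hX
    have hn : ¬ b.Ls D F e := fun h5 => hL (pwe_ls b D (h e he) h5)
    rw [w2 e he hn G hG X hX]
    constructor
    · rintro ⟨h1, h2⟩
      exact ⟨h1, pwe_rg b D (h e he) _ _ _ _ h2⟩
    · rintro ⟨h1, h2⟩
      exact ⟨h1, pwe_rg b D (h e he).symm _ _ _ _ h2⟩
  · intro e he G hG X y hE hK
    exact w2' e he G hG X y hE (pwe_kb b D (h e he).symm _ _ _ _ _ hK)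
  · intro e he hL G hG X y hE
    have h1 := w3 e he (pwe_ls b D (h e he).symm hL) G hG X y hE
    rw [← pwe_cn b D h e he.le]
    exact h1

theorem pf_pwe : T_PWE := by
  intro b D σ B t
  rw [BS.Wd]
  have h : ∀ e < σ, (fun B h => ∃ _ : e < σ, BS.Wd b D e B h) = b.Wd D e := by
    intro e he
    funext B t
    exact propext ⟨fun ⟨_, h⟩ => h, fun h => ⟨he, h⟩⟩
  constructor
  · exact pwe_iw b D (F := fun e B h => ∃ _ : e < σ, BS.Wd b D e B h) (F' := b.Wd D)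
      (fun e he => h e he) B t
  · exact pwe_iw b D (F' := fun e B h => ∃ _ : e < σ, BS.Wd b D e B h) (F := b.Wd D)
      (fun e he => (h e he).symm) B t

end SE.UZ
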