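import Pool.Agent.H23.UZ.Y11
import Pool.Agent.H45.UZ.Y12

/-!
# Board uz_modules, module Y13: limit steps
-/

set_option linter.unusedVariables false

open Ordinal Order Set
open scoped ZFSet

namespace SE.UZ

open SF

namespace Y13Aux

/-- the family of the members of a limit step -/
theorem fam (hSM : T_SM) (hRH : T_RH) (hZR : T_ZR) (D : Cx) (κ : V) (b : BS) (hA : Amb D κ)
    (hb : b.Ok D κ) (I F ξ f : V) (hI : I ∈ D.H) (hF : D.N F) (hξ : ξ ∈ κ) (hf : D.N f) :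
    ∃ (I' Bf hf' : V) (s : V → Ordinal.{0}), I' ∈ D.H ∧ D.N I' ∧ D.N Bf ∧ D.N hf' ∧
      D.N (resS I' fun v => (s v).toZFSet) ∧
      (∀ z ∈ I', (∃ η ∈ ξ, s z = b.rho D η ∧ app Bf z = fst (app f η) ∧
        app hf' z = snd (app f η)) ∨ ∃ v ∈ I, s z = b.rho D ξ ∧
        app Bf z = tK (app F v) ξ ∧ app hf' z = tH (app F v) ξ) ∧
      (∀ η ∈ ξ, ∃ z ∈ I', s z = b.rho D η ∧ app Bf z = fst (app f η) ∧
        app hf' z = snd (app f η)) ∧
      ∀ v ∈ I, ∃ z ∈ I', s z = b.rho D ξ ∧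
        app Bf z = tK (app F v) ξ ∧ app hf' z = tH (app F v) ξ := by
  have hz : ZFm D.N := hA.ok.zfc.toZFCm.toZFm
  have hN : ∀ x ∈ D.H, D.N x := hA.ok.zfc.trans _ hA.ok.hN
  obtain ⟨z1, z2, -, -, -, z6, -, -⟩ := hZR D κ b hA hb
  obtain ⟨hξH, hξN, -⟩ := z2 ξ hξ
  obtain ⟨sm1, sm2, sm3⟩ := hSM
  obtain ⟨sm4, sm5, sm6⟩ := sm3 D hA.ok
  obtain ⟨-, -, -, -, -, hR⟩ := hRH D κ b hA hb
  have hIN := hN I hI
  have h1 : ∀ a, D.N a → D.N (resS a fun x => fst (app f x)) := fun a ha =>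
    (Tm.resS (f := fun _ w => w 0) (g := fun _ y => fst (app (y 2) (y 0))) (Tm.var 0)
      (Tm.fst (Tm.app (Tm.var 2) (Tm.var 0)))).1 D.N hz (cons a (fun _ => f))
      (In.cons (fun _ => hf) ha)
  have h2 : ∀ a, D.N a → D.N (resS a fun x => snd (app f x)) := fun a ha =>
    (Tm.resS (f := fun _ w => w 0) (g := fun _ y => snd (app (y 2) (y 0))) (Tm.var 0)
      (Tm.snd (Tm.app (Tm.var 2) (Tm.var 0)))).1 D.N hz (cons a (fun _ => f))
      (In.cons (fun _ => hf) ha)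
  have h3 : D.N (resS I fun v => tK (app F v) ξ) :=
    (Tm.resS (f := fun _ w => w 0) (g := fun _ y => fst (app (app (y 2) (y 0)) (y 3)))
      (Tm.var 0) (Tm.fst (Tm.app (Tm.app (Tm.var 2) (Tm.var 0)) (Tm.var 3)))).1 D.N hz
      (cons I (cons F (fun _ => ξ))) (In.cons (In.cons (fun _ => hξN) hF) hIN)
  have h4 : D.N (resS I fun v => tH (app F v) ξ) :=
    (Tm.resS (f := fun _ w => w 0) (g := fun _ y => snd (app (app (y 2) (y 0)) (y 3)))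
      (Tm.var 0) (Tm.snd (Tm.app (Tm.app (Tm.var 2) (Tm.var 0)) (Tm.var 3)))).1 D.N hz
      (cons I (cons F (fun _ => ξ))) (In.cons (In.cons (fun _ => hξN) hF) hIN)
  have h5 : D.N (resS I fun _ => (b.rho D ξ).toZFSet) :=
    (Tm.resS (f := fun _ w => w 0) (g := fun _ y => y 2)
      (Tm.var 0) (Tm.var 2)).1 D.N hz
      (cons I (fun _ => (b.rho D ξ).toZFSet)) (In.cons (fun _ => (z6 ξ hξ).2.2.1) hIN)
  have ne : ¬ (nS 1 = nS 0) := fun h => by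
    have := nS_inj.1 h
    omega
  refine ⟨sm ξ I, sf ξ I (resS ξ fun η => fst (app f η)) (resS I fun v => tK (app F v) ξ),
    sf ξ I (resS ξ fun η => snd (app f η)) (resS I fun v => tH (app F v) ξ),
    fun z => (open Classical in if fst z = nS 0 then b.rho D (snd z) else b.rho D ξ),
    sm5 _ _ hξH hI, sm4 _ _ hξN hIN, sm6 _ _ _ _ hξN hIN (h1 ξ hξN) h3,
    sm6 _ _ _ _ hξN hIN (h2 ξ hξN) h4, ?_, ?_, ?_, ?_⟩
  · have h6 := sm6 _ _ _ _ hξN hIN hR h5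
    have h7 : (resS (sm ξ I) fun v =>
        ((open Classical in if fst v = nS 0 then b.rho D (snd v) else b.rho D ξ) :
          Ordinal.{0}).toZFSet) = sf ξ I (resS κ fun ξ => (b.rho D ξ).toZFSet)
          (resS I fun _ => (b.rho D ξ).toZFSet) := by
      unfold sf
      refine resS_congr fun x hx => ?_
      rcases (sm1 ξ I x).1 hx with ⟨η, hη, rfl⟩ | ⟨v, hv, rfl⟩
      · rw [fst_pair, snd_pair, if_pos rfl, sel_pos rfl, app_resS (z1 ξ hξ η hη)]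
      · rw [fst_pair, snd_pair, if_neg ne, sel_neg ne, app_resS hv]
    rw [h7]
    exact h6
  · intro z hzz
    rcases (sm1 ξ I z).1 hzz with ⟨η, hη, rfl⟩ | ⟨v, hv, rfl⟩
    · left
      refine ⟨η, hη, ?_, ?_, ?_⟩
      · simp only [fst_pair, snd_pair, if_true]
      · rw [(sm2 _ _ _ _).1 η hη, app_resS hη]
      · rw [(sm2 _ _ _ _).1 η hη, app_resS hη]
    · right
      refine ⟨v, hv, ?_, ?_, ?_⟩
      · exact if_neg (by rw [fst_pair]; exact ne)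
      · rw [(sm2 _ _ _ _).2 v hv, app_resS hv]
      · rw [(sm2 _ _ _ _).2 v hv, app_resS hv]
  · intro η hη
    refine ⟨ZFSet.pair (nS 0) η, (sm1 _ _ _).2 (Or.inl ⟨η, hη, rfl⟩), ?_, ?_, ?_⟩
    · simp only [fst_pair, snd_pair, if_true]
    · rw [(sm2 _ _ _ _).1 η hη, app_resS hη]
    · rw [(sm2 _ _ _ _).1 η hη, app_resS hη]
  · intro v hv
    refine ⟨ZFSet.pair (nS 1) v, (sm1 _ _ _).2 (Or.inr ⟨v, hv, rfl⟩), ?_, ?_, ?_⟩
    · exact if_neg (by rw [fst_pair]; exact ne)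
    · rw [(sm2 _ _ _ _).2 v hv, app_resS hv]
    · rw [(sm2 _ _ _ _).2 v hv, app_resS hv]

/-- (T1) read on larger sets of labels -/
theorem r1big (hZW : T_ZW) (D : Cx) (κ : V) (b : BS) (hA : Amb D κ) (hb : b.Ok D κ)
    {σ : Ordinal.{0}} {ζ p q : V} (hw : b.Wd D σ (fst q) (snd q)) (h1 : b.R1 D ζ p q)
    (hN : D.N (b.u (fst p))) (hT : Tr (b.u (fst p))) (hs : b.u (fst p) ⊆ b.u (fst q))
    {ρ : V} (hρ : D.N ρ) (hc : Cld D.L ρ) (hsub : b.u (fst q) ⊆ ρ) {G : V} (hG : D.Gn ρ G)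
    {X y : V} (hX : RR D (b.u (fst p)) G X) (hy : RR D (b.u (fst p)) G y)
    (he : Ent (snd q) G X y (b.rho D ζ)) : False := by
  obtain ⟨-, a2⟩ := hZW D κ b hA hb _ _ _ hw
  obtain ⟨c1, c2, c3, c4, c5, c6, c7, c8, c9, -⟩ := a2 ρ hρ hc hsub G hG
  obtain ⟨d1, -⟩ := c9 _ hN hs hT
  exact h1 _ c1 X y ((d1 X).1 hX) ((d1 y).1 hy) ((c4 X y _).1 he)

end Y13Aux

open Y13Aux in
theorem pf_Y13 (hY1 : T_Y1) (hY2 : T_Y2) (hY12 : T_Y12) (hAA : T_A) (hSM : T_SM) (hW0 : T_W0)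
    (hRH : T_RH) (hPSJ : T_PSJ) (hPWE : T_PWE) (hZR : T_ZR) (hZW : T_ZW) (hZE : T_ZE)
    (hQRM : T_QRM) (hBR : T_BR) : T_Y13 := by
  intro D κ b hA hb I F Z ξ0 v0 w0 hP ξ hξ hlim f hf
  have hok := hA.ok
  have hz : ZFm D.N := hok.zfc.toZFCm.toZFm
  have hN : ∀ x ∈ D.H, D.N x := hok.zfc.trans _ hok.hN
  obtain ⟨z1, z2, z3, z4, z5, z6, z7, z8⟩ := hZR D κ b hA hb
  obtain ⟨rh1, rh2, rh3, rh4, rh5, rh6⟩ := hRH D κ b hA hb
  obtain ⟨-, hLs, hNr, -, -, -⟩ := z6 ξ hξ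
  have hk : ∀ η ∈ ξ, η ∈ κ := z1 ξ hξ
  have hsubξ : ∀ η ∈ ξ, η ⊆ ξ := fun η hη => ((z4 η (hk η hη) ξ hξ).1).2 (Or.inl hη)
  -- the family
  obtain ⟨I', Bf, hh, s, hI'H, hI'N, hBN, hhN, hsN, mem, memf, memK⟩ :=
    fam hSM hRH hZR D κ b hA hb I F ξ f hP.h hP.n hξ hf.n
  -- worlds
  have hwf : ∀ η ∈ ξ, b.Wd D (b.rho D η) (fst (app f η)) (snd (app f η)) :=
    fun η hη => (hf.g η hη).w.w
  have hwK : ∀ v ∈ I, ∀ η ∈ κ, b.Wd D (b.rho D η) (tK (app F v) η) (tH (app F v) η) :=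
    fun v hv η hη => ((hW0 D κ b hA hb _ (hP.t v hv)).2.2.2.1 η hη).2.1
  have hKut : ∀ v ∈ I, ∀ η ∈ κ, b.u (tK (app F v) η) ⊆ b.ut κ (app F v) :=
    fun v hv η hη => ((hW0 D κ b hA hb _ (hP.t v hv)).2.2.2.1 η hη).2.2
  have hKK : ∀ v ∈ I, ∀ η ∈ κ, ∀ η' ∈ κ, η ⊆ η' →
      b.u (tK (app F v) η) ⊆ b.u (tK (app F v) η') := fun v hv η hη η' hη' hs =>
    ((hW0 D κ b hA hb _ (hP.t v hv)).2.2.2.2.1 η hη η' hη' hs).2
  have hw : ∀ z ∈ I', b.Wd D (s z) (app Bf z) (app hh z) := by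
    intro z hzz
    rcases mem z hzz with ⟨η, hη, e1, e2, e3⟩ | ⟨v, hv, e1, e2, e3⟩
    · rw [e1, e2, e3]; exact hwf η hη
    · rw [e1, e2, e3]; exact hwK v hv ξ hξ
  have hrle : ∀ η ∈ ξ, b.rho D η ≤ b.rho D ξ := fun η hη =>
    ((z4 η (hk η hη) ξ hξ).2.2.2.2.1).1 (hsubξ η hη)
  have hsle : ∀ z ∈ I', s z ≤ b.rho D ξ := by
    intro z hzz
    rcases mem z hzz with ⟨η, hη, e1, e2, e3⟩ | ⟨v, hv, e1, e2, e3⟩
    · rw [e1]; exact hrle η hη
    · rw [e1]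
  -- compatibility
  have hcm : ∀ z ∈ I', ∀ z' ∈ I', b.Cmt D (s z) (app Bf z) (app hh z) (s z') (app Bf z')
      (app hh z') := by
    obtain ⟨c1, c2⟩ := hY12 D κ b hA hb I F Z ξ0 v0 w0 hP ξ hξ hlim f hf
    intro z hzz z' hzz'
    rcases mem z hzz with ⟨η, hη, e1, e2, e3⟩ | ⟨v, hv, e1, e2, e3⟩
    · rcases mem z' hzz' with ⟨η', hη', f1, f2, f3⟩ | ⟨v', hv', f1, f2, f3⟩
      · rw [e1, e2, e3, f1, f2, f3]; exact c1 η hη η' hη'
      · rw [e1, e2, e3, f1, f2, f3]; exact (c2 η hη v' hv').1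
    · rcases mem z' hzz' with ⟨η', hη', f1, f2, f3⟩ | ⟨v', hv', f1, f2, f3⟩
      · rw [e1, e2, e3, f1, f2, f3]; exact Y12.cmtSymm (c2 η' hη' v hv).1
      · rw [e1, e2, e3, f1, f2, f3]
        exact (hY2 D κ b hA hb I F Z ξ0 v0 w0 hP v hv v' hv' ξ hξ).1
  have hint : ∀ η ∈ ξ, ∀ v ∈ I,
      b.u (fst (app f η)) ∩ b.u (tK (app F v) ξ) = b.u (tK (app F v) η) := fun η hη v hv =>
    ((hY12 D κ b hA hb I F Z ξ0 v0 w0 hP ξ hξ hlim f hf).2 η hη v hv).2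
  -- the set to be avoided
  obtain ⟨U, hU, hU2⟩ := H23.uts_mem hW0 hBR D κ b hA hb I F hP.h hP.n hP.t
  have hwW : ∃ W ∈ D.H, ξ0 ∈ κ → b.u (fst w0) ⊆ W := by
    by_cases h : ξ0 ∈ κ
    · obtain ⟨-, -, h2, -, -⟩ := hP.v h
      exact ⟨_, (hb.cs _ (hb.leO _ _ h2.le).2.1).h, fun _ _ hi => hi⟩
    · exact ⟨κ, hA.kH, fun h' => absurd h' h⟩
  obtain ⟨W, hW, hW2⟩ := hwW
  obtain ⟨-, -, -, hpr, -⟩ := hBR D hok
  have hZ' : Z ∪ (U ∪ W) ∈ D.H := (hpr _ hP.z _ (hpr _ hU _ hW).2.1).2.1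
  obtain ⟨y1, y2⟩ := hY1 D κ b hA hb I' Bf hh s hI'N hBN hhN hw hcm
  obtain ⟨Bp, hBo, hBr, hBn⟩ := y1 hI'H _ hZ'
  have hBle : ∀ z ∈ I', b.Le (app Bf z) Bp := fun z hzz => (hb.rc _ _ (hBr z hzz)).1
  have ha1 := y2 Bp hBo hBle
  have hBcs := hb.cs Bp hBo.o
  have hBN' : D.N (b.u Bp) := hN _ hBcs.h
  have hBc : Cld D.L (b.u Bp) := hBcs.c
  have subf : ∀ η ∈ ξ, b.u (fst (app f η)) ⊆ b.u Bp := by
    intro η hη
    obtain ⟨z, hzz, e1, e2, e3⟩ := memf η hη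
    have := (hb.leO _ _ (hBle z hzz)).2.2
    rwa [e2] at this
  have subK : ∀ v ∈ I, b.u (tK (app F v) ξ) ⊆ b.u Bp := by
    intro v hv
    obtain ⟨z, hzz, e1, e2, e3⟩ := memK v hv
    have := (hb.leO _ _ (hBle z hzz)).2.2
    rwa [e2] at this
  have cases : ∀ i ∈ b.u Bp, (∃ η ∈ ξ, i ∈ b.u (fst (app f η))) ∨
      (∃ v ∈ I, i ∈ b.u (tK (app F v) ξ)) ∨ (Kl b.l i ∧ i ∉ Z ∪ (U ∪ W)) := by
    intro i hi
    by_cases h : ∃ z ∈ I', i ∈ b.u (app Bf z)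
    · obtain ⟨z, hzz, h1⟩ := h
      rcases mem z hzz with ⟨η, hη, e1, e2, e3⟩ | ⟨v, hv, e1, e2, e3⟩
      · rw [e2] at h1; exact Or.inl ⟨η, hη, h1⟩
      · rw [e2] at h1; exact Or.inr (Or.inl ⟨v, hv, h1⟩)
    · right; right
      exact hBn i hi (fun z hzz h1 => h ⟨z, hzz, h1⟩)
  have ncod : ∀ i, Kl b.l i → ¬ b.Co i := by
    rintro i ⟨e, he, hk'⟩ hCo
    have h3 : nS b.l = nS e := (show kd i = nS b.l from hCo).symm.trans hk'
    have := nS_inj.1 h3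
    omega
  have casesC : ∀ j ∈ b.u Bp, b.Co j → (∃ η ∈ ξ, j ∈ b.u (fst (app f η))) ∨
      (∃ v ∈ I, j ∈ b.u (tK (app F v) ξ)) := by
    intro j hj hCo
    rcases cases j hj with h | h | h
    · exact Or.inl h
    · exact Or.inr h
    · exact absurd hCo (ncod j h.1)
  -- facts on worlds, read on the labels of `Bp`
  have psj7 : ∀ (σ : Ordinal.{0}) (t : V), b.sj D (b.Wd D) σ t ≤ σ := (hPSJ b D (b.Wd D)).2.2.2.2.2.2.1
  have w1big : ∀ σ B h, b.Wd D σ B h → b.u B ⊆ b.u Bp → ∀ G, D.Gn (b.u Bp) G →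
      ∀ j ∈ b.u B, b.Co j → ∀ X y, (Sn D G X y j → RR D (b.u B) G X ∧ RR D (b.u B) G y) ∧
        (∀ e, Ent h G X y e → ev G (lZ j) ≠ prl X y) ∧
        (∀ e, Ent h G X y e → b.Ls D (b.Wd D) e →
          tm j ∈ (succ (b.cn D (b.Wd D) e)).toZFSet → ¬ Sn D G X y j) := by
    intro σ B h hw hs G hG j hj hCo X y
    obtain ⟨-, a2⟩ := hZW D κ b hA hb _ _ _ hw
    obtain ⟨c1, c2, c3, c4, c5, c6, c7, c8, c9, c10, c11, c12, c13⟩ := a2 _ hBN' hBc hs G hG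
    exact (c11 j hj hCo X y).2
  have enbig : ∀ σ B h, b.Wd D σ B h → b.u B ⊆ b.u Bp → ∀ G, D.Gn (b.u Bp) G →
      ∀ X y e, Ent h G X y e → RR D (b.u B) G X ∧ RR D (b.u B) G y ∧ e < σ := by
    intro σ B h hw hs G hG X y e he
    obtain ⟨-, a2⟩ := hZW D κ b hA hb _ _ _ hw
    obtain ⟨c1, c2, c3, -⟩ := a2 _ hBN' hBc hs G hG
    exact c3 X y e he
  have his : ∀ σ B h, b.Wd D σ B h → His D (b.u B) h σ := by
    intro σ B h hw
    exact (hZW D κ b hA hb _ _ _ hw).1.2.2.2.2.2.2.2.2.2.1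
  have nft : ∀ σ B h, b.Wd D σ B h → D.N (b.u B) ∧ Tr (b.u B) := by
    intro σ B h hw
    have := (hZW D κ b hA hb _ _ _ hw).1
    exact ⟨this.2.2.2.2.1, this.2.2.2.2.2.1⟩
  -- entries of faces
  have lw1 : ∀ σ σ1 σ2 C h0 B h, b.Wd D σ1 C h0 → b.Wd D σ2 B h → b.LW D σ C h0 B h →
      b.u B ⊆ b.u Bp → ∀ G, D.Gn (b.u Bp) G →
      (∀ x, RR D (b.u C) G x → RR D (b.u B) G x) ∧
      (∀ X, RR D (b.u C) G X → ∀ y e, e < σ → (Ent h0 G X y e ↔ Ent h G X y e)) ∧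
      ∀ X y e, Ent h0 G X y e → e < σ → Ent h G X y e := by
    intro σ σ1 σ2 C h0 B h hC hB hl hs G hG
    obtain ⟨-, a2⟩ := hZE D κ b hA hb _ _ _ _ _ _ _ (his _ _ _ hC) (his _ _ _ hB) hl
    obtain ⟨c1, c2, c3, c4, c5, -⟩ := a2 _ hBN' hBc hs G hG
    exact ⟨c1, c4, c5⟩
  have mon : ∀ η ∈ κ, ∀ η' ∈ κ, η ∈ η' → b.rho D η < b.rho D η' := fun η hη η' hη' h =>
    ((z4 η hη η' hη').2.2.2.2.2.1).1 h
  -- the intersection of the member `η` and the core `ξ`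
  have rint : ∀ η ∈ ξ, ∀ v ∈ I, ∀ G, D.Gn (b.u Bp) G → ∀ X, RR D (b.u (fst (app f η))) G X →
      RR D (b.u (tK (app F v) ξ)) G X → RR D (b.u (tK (app F v) η)) G X := by
    intro η hη v hv G hG X h1 h2
    rw [← hint η hη v hv]
    exact hQRM D hok _ G _ _ hBN' hBc hG (nft _ _ _ (hwf η hη)).1
      (nft _ _ _ (hwK v hv ξ hξ)).1 (subf η hη) (subK v hv) (nft _ _ _ (hwf η hη)).2
      (nft _ _ _ (hwK v hv ξ hξ)).2 X h1 h2
  have hAF : b.AF D (b.rho D ξ) I' Bf hh s Bp := by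
    refine ⟨hI'N, hBN, hhN, hsN, hBo, hsle, hw, hBle, ha1, ?_, ?_⟩
    · intro j hj hCo
      rcases casesC j hj hCo with ⟨η, hη, h⟩ | ⟨v, hv, h⟩
      · obtain ⟨z, hzz, e1, e2, e3⟩ := memf η hη
        have htm : tm j ∈ η := (hf.g η hη).tm j h hCo
        have htm' : tm j ∈ ξ := hsubξ η hη htm
        have hs1 : b.sj D (b.Wd D) (b.rho D ξ) (tm j) = b.rho D (tm j) :=
          (rh5 ξ hξ (tm j)).1 htm'
        have hs2 : b.sj D (b.Wd D) (b.rho D η) (tm j) = b.rho D (tm j) :=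
          (rh5 η (hk η hη) (tm j)).1 htm
        have hIw := (hPWE b D _ _ _).1 (hwf η hη)
        refine ⟨z, hzz, ?_, ?_, ?_, ?_⟩
        · rw [e2]; exact ((hZW D κ b hA hb _ _ _ (hwf η hη)).1.2.2.2.2.2.2.2.2.2.2 j h hCo).1
        · rw [hs1, e1]; exact (mon _ (hk _ htm') _ (hk η hη) htm).le
        · rw [hs1, e2, e3, ← hs2]; exact hIw.w0 j h hCo
        · intro G hG X y e he hE
          rw [e3] at hE
          exact (w1big _ _ _ (hwf η hη) (subf η hη) G hG j h hCo X y).2.1 e hE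
      · obtain ⟨z, hzz, e1, e2, e3⟩ := memK v hv
        have hIw := (hPWE b D _ _ _).1 (hwK v hv ξ hξ)
        refine ⟨z, hzz, ?_, ?_, ?_, ?_⟩
        · rw [e2]
          exact ((hZW D κ b hA hb _ _ _ (hwK v hv ξ hξ)).1.2.2.2.2.2.2.2.2.2.2 j h hCo).1
        · rw [e1]; exact psj7 _ _
        · rw [e2, e3]; exact hIw.w0 j h hCo
        · intro G hG X y e he hE
          rw [e3] at hE
          exact (w1big _ _ _ (hwK v hv ξ hξ) (subK v hv) G hG j h hCo X y).2.1 e hE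
    · intro G hG j hj hCo z hzz X y e hE hL htm hSn
      have he : e < s z := (enbig _ _ _ (hw z hzz)
        ((hb.leO _ _ (hBle z hzz)).2.2) G hG X y e hE).2.2
      obtain ⟨ζ, hζ, heζ, htζ⟩ := z8 ξ hξ e (tm j) hL (lt_of_lt_of_le he (hsle z hzz)) htm
      rcases casesC j hj hCo with ⟨η, hη, h⟩ | ⟨v, hv, h⟩
      · have hSR := (w1big _ _ _ (hwf η hη) (subf η hη) G hG j h hCo X y).1 hSn
        rcases mem z hzz with ⟨η', hη', e1, e2, e3⟩ | ⟨v, hv, e1, e2, e3⟩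
        · rw [e3] at hE
          rw [e1] at he
          rcases z3 η (hk η hη) η' (hk η' hη') with h1 | h1 | h1
          · have hs := (hb.leO _ _ (hf.r η' hη' η h1).le.le).2.2
            exact (w1big _ _ _ (hwf η' hη') (subf η' hη') G hG j (hs h) hCo X y).2.2 e hE hL
              htm hSn
          · subst h1
            exact (w1big _ _ _ (hwf η hη) (subf η hη) G hG j h hCo X y).2.2 e hE hL htm hSn
          · have := (lw1 _ _ _ _ _ _ _ (hwf η' hη') (hwf η hη) (hf.r η hη η' h1).le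
              (subf η hη) G hG).2.2 X y e hE he
            exact (w1big _ _ _ (hwf η hη) (subf η hη) G hG j h hCo X y).2.2 e this hL htm hSn
        · rw [e3] at hE
          have hER := enbig _ _ _ (hwK v hv ξ hξ) (subK v hv) G hG X y e hE
          have hX := rint η hη v hv G hG X hSR.1 hER.1
          have hy := rint η hη v hv G hG y hSR.2 hER.2.1
          have hηκ := hk η hη
          by_cases hηζ : η ⊆ ζ
          · rw [heζ] at hE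
            exact r1big hZW D κ b hA hb (hwK v hv ξ hξ)
              ((hP.t v hv).t1 η hηκ ζ (hk ζ hζ) ξ hξ hηζ hζ)
              (nft _ _ _ (hwK v hv η hηκ)).1 (nft _ _ _ (hwK v hv η hηκ)).2
              (hKK v hv η hηκ ξ hξ (hsubξ η hη)) hBN' hBc (subK v hv) hG hX hy hE
          · have hζη : ζ ∈ η := by
              rcases z3 η hηκ ζ (hk ζ hζ) with h1 | h1 | h1
              · exact absurd (((z4 η hηκ ζ (hk ζ hζ)).1).2 (Or.inl h1)) hηζ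
              · exact absurd (((z4 η hηκ ζ (hk ζ hζ)).1).2 (Or.inr h1)) hηζ
              · exact h1
            have heη : e < b.rho D η := by
              rw [heζ]; exact mon ζ (hk ζ hζ) η hηκ hζη
            have hE2 := ((lw1 _ _ _ _ _ _ _ (hwK v hv η hηκ) (hwK v hv ξ hξ)
              ((hP.t v hv).t0 η hηκ ξ hξ hη) (subK v hv) G hG).2.1 X hX y e heη).2 hE
            have hE3 := (lw1 _ _ _ _ _ _ _ (hwK v hv η hηκ) (hwf η hη)
              ((hf.g η hη).le v hv) (subf η hη) G hG).2.2 X y e hE2 heη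
            exact (w1big _ _ _ (hwf η hη) (subf η hη) G hG j h hCo X y).2.2 e hE3 hL htm hSn
      · have hSR := (w1big _ _ _ (hwK v hv ξ hξ) (subK v hv) G hG j h hCo X y).1 hSn
        rcases mem z hzz with ⟨η, hη, e1, e2, e3⟩ | ⟨v', hv', e1, e2, e3⟩
        · rw [e3] at hE
          rw [e1] at he
          have hηκ := hk η hη
          have hER := enbig _ _ _ (hwf η hη) (subf η hη) G hG X y e hE
          have hX := rint η hη v hv G hG X hER.1 hSR.1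
          have hE2 := ((lw1 _ _ _ _ _ _ _ (hwK v hv η hηκ) (hwf η hη)
            ((hf.g η hη).le v hv) (subf η hη) G hG).2.1 X hX y e he).2 hE
          have hE3 := (lw1 _ _ _ _ _ _ _ (hwK v hv η hηκ) (hwK v hv ξ hξ)
            ((hP.t v hv).t0 η hηκ ξ hξ hη) (subK v hv) G hG).2.2 X y e hE2 he
          exact (w1big _ _ _ (hwK v hv ξ hξ) (subK v hv) G hG j h hCo X y).2.2 e hE3 hL htm hSn
        · rw [e3] at hE
          have hER := enbig _ _ _ (hwK v' hv' ξ hξ) (subK v' hv') G hG X y e hE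
          have hE2 := ((hY2 D κ b hA hb I F Z ξ0 v0 w0 hP v hv v' hv' ξ hξ).2.2 _ hBN' hBc
            (subK v hv) (subK v' hv') G hG X hSR.1 hER.1 y e).2 hE
          exact (w1big _ _ _ (hwK v hv ξ hξ) (subK v hv) G hG j h hCo X y).2.2 e hE2 hL htm hSn
  obtain ⟨hp, hpW, hpL⟩ := hAA D κ b _ ⟨hA, hb, hNr⟩ I' Bf hh s Bp hAF
  have lf : ∀ η ∈ ξ, b.LW D (b.rho D η) (fst (app f η)) (snd (app f η)) Bp hp := by
    intro η hη
    obtain ⟨z, hzz, e1, e2, e3⟩ := memf η hη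
    have := hpL z hzz
    rwa [e1, e2, e3] at this
  have lK : ∀ v ∈ I, b.LW D (b.rho D ξ) (tK (app F v) ξ) (tH (app F v) ξ) Bp hp := by
    intro v hv
    obtain ⟨z, hzz, e1, e2, e3⟩ := memK v hv
    have := hpL z hzz
    rwa [e1, e2, e3] at this
  refine ⟨ZFSet.pair Bp hp, ⟨⟨by rw [fst_pair, snd_pair], by rw [fst_pair, snd_pair]; exact hpW⟩,
    ?_, ?_, ?_, ?_, ?_, ?_⟩, ?_⟩
  · intro j hj hCo
    rw [fst_pair] at hj
    rcases casesC j hj hCo with ⟨η, hη, h⟩ | ⟨v, hv, h⟩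
    · exact hsubξ η hη ((hf.g η hη).tm j h hCo)
    · exact (hP.t v hv).tm ξ hξ j h hCo
  · intro v hv
    show b.LW D _ _ _ (fst (ZFSet.pair Bp hp)) (snd (ZFSet.pair Bp hp))
    rw [fst_pair, snd_pair]
    exact lK v hv
  · intro v hv
    rw [fst_pair]
    ext i
    constructor
    · intro hi
      obtain ⟨h1, h2⟩ := ZFSet.mem_inter.1 hi
      rcases cases i h1 with ⟨η, hη, h⟩ | ⟨v', hv', h⟩ | ⟨-, h⟩
      · have h3 : i ∈ b.u (tK (app F v) η) := by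
          rw [← (hf.g η hη).i v hv]
          exact ZFSet.mem_inter.2 ⟨h, h2⟩
        exact hKK v hv η (hk η hη) ξ hξ (hsubξ η hη) h3
      · exact (hY2 D κ b hA hb I F Z ξ0 v0 w0 hP v' hv' v hv ξ hξ).2.1 i h h2
      · exact absurd (ZFSet.mem_union.2 (Or.inr (ZFSet.mem_union.2 (Or.inl (hU2 v hv h2))))) h
    · intro hi
      exact ZFSet.mem_inter.2 ⟨subK v hv hi, hKut v hv ξ hξ hi⟩
  · intro h0 hsub
    obtain ⟨p1, p2, p3, p4, p5⟩ := hP.v h0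
    rw [fst_pair]
    ext i
    constructor
    · intro hi
      obtain ⟨h1, h2⟩ := ZFSet.mem_inter.1 hi
      rcases cases i h1 with ⟨η, hη, h⟩ | ⟨v', hv', h⟩ | ⟨-, h⟩
      · have h3 : i ∈ b.u (tK (app F v0) η) := by
          rw [← (hf.g η hη).i0 h0 (((z4 η (hk η hη) ξ0 h0).1).2 (Or.inl (hsub hη)))]
          exact ZFSet.mem_inter.2 ⟨h, h2⟩
        exact hKK v0 p1 η (hk η hη) ξ hξ (hsubξ η hη) h3
      · have h3 : i ∈ b.u (tK (app F v0) ξ0) := by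
          by_contra hcon
          exact p5 i h2 hcon v' hv' (hKut v' hv' ξ hξ h)
        exact (hY2 D κ b hA hb I F Z ξ0 v0 w0 hP v' hv' v0 p1 ξ hξ).2.1 i h
          (hKut v0 p1 ξ0 h0 h3)
      · exact absurd (ZFSet.mem_union.2 (Or.inr (ZFSet.mem_union.2 (Or.inr (hW2 h0 h2))))) h
    · intro hi
      exact ZFSet.mem_inter.2 ⟨subK v0 p1 hi,
        (hb.leO _ _ p3.le).2.2 (hKK v0 p1 ξ hξ ξ0 h0 hsub hi)⟩
  · intro h0 h1
    rw [fst_pair]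
    intro i hi
    exact subf _ (hlim ξ0 h1) ((hf.g _ (hlim ξ0 h1)).c0 h0
      (ZFSet.mem_insert_iff.2 (Or.inl rfl)) hi)
  · intro i hi h1 h2
    rw [fst_pair] at hi
    rcases cases i hi with ⟨η, hη, h⟩ | ⟨v', hv', h⟩ | ⟨h, h'⟩
    · exact (hf.g η hη).nl i h h1 h2
    · exact absurd (hKut v' hv' ξ hξ h) (h1 v' hv')
    · obtain ⟨e, he, hk'⟩ := h
      exact ⟨⟨e, by omega, hk'⟩, fun h3 => h' (ZFSet.mem_union.2 (Or.inl h3))⟩
  · intro η hη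
    have hηκ := hk η hη
    refine ⟨?_, ?_⟩
    · show b.LW D _ _ _ (fst (ZFSet.pair Bp hp)) (snd (ZFSet.pair Bp hp))
      rw [fst_pair, snd_pair]
      exact lf η hη
    · intro ζ hηζ hζ G hG X y hX hy hE
      rw [fst_pair] at hG
      rw [snd_pair] at hE
      have hζ' : insert ζ ζ ∈ ξ := hlim ζ hζ
      have hζκ := hk ζ hζ
      have hζ'κ := hk _ hζ'
      have hηζ' : η ∈ insert ζ ζ := by
        rcases ((z4 η hηκ ζ hζκ).1).1 hηζ with h1 | h1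
        · exact ZFSet.mem_insert_iff.2 (Or.inr h1)
        · exact ZFSet.mem_insert_iff.2 (Or.inl h1)
      have hζζ' : ζ ∈ insert ζ ζ := ZFSet.mem_insert_iff.2 (Or.inl rfl)
      have hr := hf.r _ hζ' η hηζ'
      have hXX := (lw1 _ _ _ _ _ _ _ (hwf η hη) (hwf _ hζ') hr.le (subf _ hζ') G hG).1 X hX
      have hE2 := ((lw1 _ _ _ _ _ _ _ (hwf _ hζ') hpW (lf _ hζ') (fun z hz => hz) G hG).2.1
        X hXX y _ (mon ζ hζκ _ hζ'κ hζζ')).2 hE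
      exact r1big hZW D κ b hA hb (hwf _ hζ') (hr.t1 ζ hηζ hζζ')
        (nft _ _ _ (hwf η hη)).1 (nft _ _ _ (hwf η hη)).2
        (hb.leO _ _ hr.le.le).2.2 hBN' hBc (subf _ hζ') hG hX hy hE2

end SE.UZ
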