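import Pool.Agent.H38.UZ.TarZ

/-!
# Board uz_modules, module Y2: compatibility of the cores of two towers
-/

set_option linter.unusedVariables false

open Ordinal Order Set
open scoped ZFSet

namespace SE.UZ

open SF

theorem pf_Y2 (hW0 : T_W0) (hZW : T_ZW) (hZE : T_ZE) (hQRM : T_QRM) : T_Y2 := by
  intro D κ b hA hb I F Z ξ0 v0 w0 hP v hv v' hv' ξ hξ
  have hok := hA.ok
  obtain ⟨C, hC, hC', hut⟩ := hP.a v hv v' hv'
  obtain ⟨-, -, -, w4, -, -⟩ := hW0 D κ b hA hb _ (hP.t v hv)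
  obtain ⟨-, -, -, w4', -, -⟩ := hW0 D κ b hA hb _ (hP.t v' hv')
  obtain ⟨-, -, -, c4, -, -⟩ := hW0 D κ b hA hb _ hC.t
  have hu1 := hC.u ξ hξ
  have hu2 := hC'.u ξ hξ
  have hsub1 : b.u (tK (app F v) ξ) ⊆ b.ut κ (app F v) := (w4 ξ hξ).2.2
  have hsub2 : b.u (tK (app F v') ξ) ⊆ b.ut κ (app F v') := (w4' ξ hξ).2.2
  have h2 : ∀ i, i ∈ b.u (tK (app F v) ξ) → i ∈ b.ut κ (app F v') →
      i ∈ b.u (tK (app F v') ξ) := by
    intro i hi hi'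
    have h1 : i ∈ b.ut κ C := by
      rw [hut]
      exact ZFSet.mem_inter.2 ⟨hsub1 hi, hi'⟩
    have h3 : i ∈ b.u (tK C ξ) := by
      rw [hu1]
      exact ZFSet.mem_inter.2 ⟨hi, h1⟩
    rw [hu2] at h3
    exact (ZFSet.mem_inter.1 h3).1
  have hint : b.u (tK C ξ) = b.u (tK (app F v) ξ) ∩ b.u (tK (app F v') ξ) := by
    ext i
    constructor
    · intro hi
      have h3 := hi
      have h4 := hi
      rw [hu1] at h3
      rw [hu2] at h4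
      exact ZFSet.mem_inter.2 ⟨(ZFSet.mem_inter.1 h3).1, (ZFSet.mem_inter.1 h4).1⟩
    · intro hi
      obtain ⟨h3, h4⟩ := ZFSet.mem_inter.1 hi
      rw [hu1, hut]
      exact ZFSet.mem_inter.2 ⟨h3, ZFSet.mem_inter.2 ⟨hsub1 h3, hsub2 h4⟩⟩
  obtain ⟨ca, cb⟩ := hZW D κ b hA hb _ _ _ (c4 ξ hξ).2.1
  obtain ⟨cOb, cObs, cCS, cH, cN, cTr, cCld, cNB, cNh, cHis, cCo⟩ := ca
  obtain ⟨ka, kb⟩ := hZW D κ b hA hb _ _ _ (w4 ξ hξ).2.1
  obtain ⟨kOb, kObs, kCS, kH, kN, kTr, kCld, kNB, kNh, kHis, kCo⟩ := ka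
  obtain ⟨la, lb⟩ := hZW D κ b hA hb _ _ _ (w4' ξ hξ).2.1
  obtain ⟨lOb, lObs, lCS, lH, lN, lTr, lCld, lNB, lNh, lHis, lCo⟩ := la
  refine ⟨⟨tK C ξ, tH C ξ, b.rho D ξ, hint, cHis, ?_, ?_⟩, h2, ?_⟩
  · rw [min_self]
    exact hC.le ξ hξ
  · rw [min_self]
    exact hC'.le ξ hξ
  · intro ρ hρ hc hs hs' G hG X hX hX' y e
    have hXC : RR D (b.u (tK C ξ)) G X := by
      rw [hint]
      exact hQRM D hok ρ G _ _ hρ hc hG kN lN hs hs' kTr lTr X hX hX'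
    obtain ⟨-, e2⟩ := hZE D κ b hA hb _ _ _ _ _ _ _ cHis kHis (hC.le ξ hξ)
    obtain ⟨-, e2'⟩ := hZE D κ b hA hb _ _ _ _ _ _ _ cHis lHis (hC'.le ξ hξ)
    obtain ⟨-, -, -, f4, -⟩ := e2 ρ hρ hc hs G hG
    obtain ⟨-, -, -, f4', -⟩ := e2' ρ hρ hc hs' G hG
    obtain ⟨-, -, k3, -⟩ := kb ρ hρ hc hs G hG
    obtain ⟨-, -, l3, -⟩ := lb ρ hρ hc hs' G hG
    constructor
    · intro h
      have he := (k3 X y e h).2.2
      exact (f4' X hXC y e he).1 ((f4 X hXC y e he).2 h)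
    · intro h
      have he := (l3 X y e h).2.2
      exact (f4 X hXC y e he).1 ((f4' X hXC y e he).2 h)

end SE.UZ
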