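import Pool.Agent.H38.UZ.TarZ

/-!
# Board uz_modules, module Y3: step 2, pairwise compatibility
-/

set_option linter.unusedVariables false

open Ordinal Order Set
open scoped ZFSet

namespace SE.UZ

open SF

namespace Y3Aux

theorem mkC {b : BS} {D : Cx} {r θ : Ordinal.{0}} {B h B' h' C h0 : V}
    (h1 : b.u C = b.u B ∩ b.u B') (h2 : His D (b.u C) h0 θ) (h3 : b.LW D r C h0 B h)
    (h4 : b.LW D r C h0 B' h') : b.Cmt D r B h r B' h' :=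
  ⟨C, h0, θ, h1, h2, by rwa [min_self], by rwa [min_self]⟩

end Y3Aux

open Y3Aux in
theorem pf_Y3 (hY2 : T_Y2) (hW0 : T_W0) (hZR : T_ZR) (hZW : T_ZW) (hPLW : T_PLW)
    (hPHA : T_PHA) : T_Y3 := by
  intro D κ b hA hb I F Z ξ0 v0 w0 hP ξ hξ q hq Z' hAv I1 F1 hPts r hr0
  obtain ⟨hz1, hz2, hz3, hz4, hz5, hz6, hz7, hz8⟩ := hZR D κ b hA hb
  have hξ' : insert ξ ξ ∈ κ := (hz2 ξ hξ).2.2
  obtain ⟨-, hLs, hNr, -, hlt, hcn⟩ := hz6 ξ hξ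
  have hok := hA.ok
  obtain ⟨l1, l2, l3, l4, l5⟩ := hPLW D κ hA b hb
  -- facts about worlds
  have wf : ∀ σ B h, b.Wd D σ B h → B ∈ b.Ob ∧ D.N (b.u B) ∧ Cld D.L (b.u B) ∧
      His D (b.u B) h σ := by
    intro σ B h hw
    obtain ⟨⟨a1, a2, a3, a4, a5, a6, a7, a8, a9, a10, a11⟩, -⟩ := hZW D κ b hA hb _ _ _ hw
    exact ⟨a1, a5, a7, a10⟩
  -- truncation
  have tru : ∀ σ B h, B ∈ b.Ob → His D (b.u B) h σ → ∀ e, His D (b.u B) (hr h e) e ∧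
      (σ ≤ e → hr h e = h) := by
    intro σ B h hB hh e
    have hcs := hb.cs B hB
    have hN : D.N (b.u B) := hok.zfc.toZFCm.toZFm.trans _ hok.hN _ hcs.h
    have := (hPHA D hok _ _ _ _ hN hcs.c hN hcs.c (fun z hz => hz) hh).2.1 e
    exact ⟨this.2.1, this.2.2.1⟩
  have lwt : ∀ B0 h0 B1 h1 σ2, B0 ∈ b.Ob → B1 ∈ b.Ob → His D (b.u B0) h0 r →
      His D (b.u B1) h1 σ2 → b.LW D r B0 h0 B1 h1 → b.LW D r B0 h0 B1 (hr h1 r) := by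
    intro B0 h0 B1 h1 σ2 hB0 hB1 hh0 hh1 hl
    have := (l4 _ _ r r r B0 h0 B1 h1 hh0 hh1 le_rfl le_rfl).2 hl
    rwa [(tru r B0 h0 hB0 hh0 r).2 le_rfl] at this
  -- worlds
  have hwq : b.Wd D r (fst q) (snd q) := by rw [hr0]; exact hq.w.w
  have hwx : ∀ x ∈ I1, b.Wd D r (fst (app F1 x)) (snd (app F1 x)) := fun x hx => by
    rw [hr0]; exact (hPts.p x hx).w.w
  have hlx : ∀ x ∈ I1, b.LW D r (fst q) (snd q) (fst (app F1 x)) (snd (app F1 x)) :=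
    fun x hx => by rw [hr0]; exact (hPts.p x hx).le
  obtain ⟨qOb, qN, qCld, qHis⟩ := wf _ _ _ hwq
  have hK : ∀ v ∈ I, b.Wd D r (tK (app F v) ξ) (tH (app F v) ξ) := fun v hv => by
    rw [hr0]; exact ((hW0 D κ b hA hb _ (hP.t v hv)).2.2.2.1 ξ hξ).2.1
  have hK' : ∀ v ∈ I, b.Wd D (b.rho D (insert ξ ξ)) (tK (app F v) (insert ξ ξ))
      (tH (app F v) (insert ξ ξ)) := fun v hv =>
    ((hW0 D κ b hA hb _ (hP.t v hv)).2.2.2.1 (insert ξ ξ) hξ').2.1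
  have hKu : ∀ v ∈ I, b.u (tK (app F v) (insert ξ ξ)) ⊆ b.ut κ (app F v) := fun v hv =>
    ((hW0 D κ b hA hb _ (hP.t v hv)).2.2.2.1 (insert ξ ξ) hξ').2.2
  have hKu0 : ∀ v ∈ I, b.u (tK (app F v) ξ) ⊆ b.ut κ (app F v) := fun v hv =>
    ((hW0 D κ b hA hb _ (hP.t v hv)).2.2.2.1 ξ hξ).2.2
  have hKK : ∀ v ∈ I, b.u (tK (app F v) ξ) ⊆ b.u (tK (app F v) (insert ξ ξ)) := fun v hv =>
    ((hW0 D κ b hA hb _ (hP.t v hv)).2.2.2.2.1 ξ hξ (insert ξ ξ) hξ'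
      (fun z hz => ZFSet.mem_insert_iff.2 (Or.inr hz))).2
  -- faces
  have fKq : ∀ v ∈ I, b.LW D r (tK (app F v) ξ) (tH (app F v) ξ) (fst q) (snd q) :=
    fun v hv => by rw [hr0]; exact hq.le v hv
  have fKx : ∀ v ∈ I, ∀ x ∈ I1, b.LW D r (tK (app F v) ξ) (tH (app F v) ξ)
      (fst (app F1 x)) (snd (app F1 x)) := by
    intro v hv x hx
    obtain ⟨a1, a2, a3, a4⟩ := wf _ _ _ (hK v hv)
    exact l2 r _ _ _ _ _ _ _ _ a1 a4 qHis (fKq v hv) (hlx x hx)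
  have fKK : ∀ v ∈ I, b.LW D r (tK (app F v) ξ) (tH (app F v) ξ)
      (tK (app F v) (insert ξ ξ)) (tH (app F v) (insert ξ ξ)) := fun v hv => by
    rw [hr0]
    exact (hP.t v hv).t0 ξ hξ (insert ξ ξ) hξ' (ZFSet.mem_insert_iff.2 (Or.inl rfl))
  have fKK' : ∀ v ∈ I, b.LW D r (tK (app F v) ξ) (tH (app F v) ξ)
      (tK (app F v) (insert ξ ξ)) (hr (tH (app F v) (insert ξ ξ)) r) := by
    intro v hv
    obtain ⟨a1, a2, a3, a4⟩ := wf _ _ _ (hK v hv)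
    obtain ⟨c1, c2, c3, c4⟩ := wf _ _ _ (hK' v hv)
    exact lwt _ _ _ _ _ a1 c1 a4 c4 (fKK v hv)
  -- intersections
  have iD : ∀ v ∈ I, b.u (fst q) ∩ b.u (tK (app F v) (insert ξ ξ)) = b.u (tK (app F v) ξ) := by
    intro v hv
    have h1 := hq.i v hv
    ext i
    constructor
    · intro hi
      obtain ⟨h3, h4⟩ := ZFSet.mem_inter.1 hi
      rw [← h1]
      exact ZFSet.mem_inter.2 ⟨h3, hKu v hv h4⟩
    · intro hi
      have h3 := hi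
      rw [← h1] at h3
      exact ZFSet.mem_inter.2 ⟨(ZFSet.mem_inter.1 h3).1, hKK v hv hi⟩
  have qx : ∀ x ∈ I1, b.u (fst q) ⊆ b.u (fst (app F1 x)) := fun x hx =>
    (hb.leO _ _ (hlx x hx).le).2.2
  have iE : ∀ x ∈ I1, ∀ v ∈ I, b.u (fst (app F1 x)) ∩ b.u (tK (app F v) (insert ξ ξ)) =
      b.u (tK (app F v) ξ) := by
    intro x hx v hv
    rw [← iD v hv]
    ext i
    constructor
    · intro hi
      obtain ⟨h3, h4⟩ := ZFSet.mem_inter.1 hi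
      refine ZFSet.mem_inter.2 ⟨?_, h4⟩
      by_contra hcon
      exact ((hPts.p x hx).nl i h3 hcon).2 (hAv.t v hv (hKu v hv h4))
    · intro hi
      obtain ⟨h3, h4⟩ := ZFSet.mem_inter.1 hi
      exact ZFSet.mem_inter.2 ⟨qx x hx h3, h4⟩
  have iG : ξ0 ∈ κ → ∀ x ∈ I1, b.u (fst w0) ∩ b.u (fst (app F1 x)) ⊆ b.u (fst q) := by
    intro h0 x hx i hi
    obtain ⟨h3, h4⟩ := ZFSet.mem_inter.1 hi
    by_contra hcon
    exact ((hPts.p x hx).nl i h4 hcon).2 (hAv.w h0 h3)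
  -- the world `w0` and the core of `v0`
  have hv0 : ξ0 ∈ κ → ξ0 = ξ → v0 ∈ I ∧ b.Wd D r (fst w0) (snd w0) ∧
      b.LW D r (tK (app F v0) ξ) (tH (app F v0) ξ) (fst w0) (snd w0) ∧
      b.u (fst q) ∩ b.u (fst w0) = b.u (tK (app F v0) ξ) ∧
      ∀ i ∈ b.u (fst w0), i ∉ b.u (tK (app F v0) ξ) → ∀ v ∈ I, i ∉ b.ut κ (app F v) := by
    intro h0 h1
    obtain ⟨a1, a2, a3, a4, a5⟩ := hP.v h0
    have a6 := a2.w
    rw [h1] at a3 a5 a6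
    rw [hr0]
    exact ⟨a1, a6, a3, hq.i0 h0 (by rw [h1]), a5⟩
  -- the common tower of `v0`, `v`
  have hw0K : ξ0 ∈ κ → ξ0 = ξ → ∀ v ∈ I,
      (∃ C h0 θ, C ∈ b.Ob ∧ b.u C = b.u (fst w0) ∩ b.u (tK (app F v) (insert ξ ξ)) ∧
        His D (b.u C) h0 θ ∧ b.LW D r C h0 (fst w0) (snd w0) ∧
        b.LW D r C h0 (tK (app F v) (insert ξ ξ)) (hr (tH (app F v) (insert ξ ξ)) r)) ∧
      b.u (fst w0) ∩ b.u (tK (app F v) (insert ξ ξ)) ⊆ b.u (tK (app F v) ξ) := by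
    intro h0 h1 v hv
    obtain ⟨a1, a2, a3, a4, a5⟩ := hv0 h0 h1
    obtain ⟨C, hC, hC', hut⟩ := hP.a v0 a1 v hv
    have hu1 := hC.u ξ hξ
    have hu2 := hC'.u ξ hξ
    have hwC := ((hW0 D κ b hA hb _ hC.t).2.2.2.1 ξ hξ).2.1
    rw [← hr0] at hwC
    obtain ⟨d1, d2, d3, d4⟩ := wf _ _ _ hwC
    obtain ⟨e1, e2, e3, e4⟩ := wf _ _ _ (hK v0 a1)
    obtain ⟨f1, f2, f3, f4⟩ := wf _ _ _ (hK v hv)
    obtain ⟨g1, g2, g3, g4⟩ := wf _ _ _ (hK' v hv)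
    have hCK : b.u (tK C ξ) ⊆ b.u (tK (app F v) ξ) := by
      intro i hi
      rw [hu2] at hi
      exact (ZFSet.mem_inter.1 hi).1
    have hint : b.u (tK C ξ) = b.u (fst w0) ∩ b.u (tK (app F v) (insert ξ ξ)) := by
      ext i
      constructor
      · intro hi
        refine ZFSet.mem_inter.2 ⟨?_, hKK v hv (hCK hi)⟩
        rw [hu1] at hi
        have h3 := (ZFSet.mem_inter.1 hi).1
        rw [← a4] at h3
        exact (ZFSet.mem_inter.1 h3).2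
      · intro hi
        obtain ⟨h3, h4⟩ := ZFSet.mem_inter.1 hi
        have h5 : i ∈ b.u (tK (app F v0) ξ) := by
          by_contra hcon
          exact a5 i h3 hcon v hv (hKu v hv h4)
        rw [hu1, hut]
        exact ZFSet.mem_inter.2 ⟨h5, ZFSet.mem_inter.2 ⟨hKu0 v0 a1 h5, hKu v hv h4⟩⟩
    have fC0 : b.LW D r (tK C ξ) (tH C ξ) (tK (app F v0) ξ) (tH (app F v0) ξ) := by
      rw [hr0]; exact hC.le ξ hξ
    have fC1 : b.LW D r (tK C ξ) (tH C ξ) (tK (app F v) ξ) (tH (app F v) ξ) := by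
      rw [hr0]; exact hC'.le ξ hξ
    refine ⟨⟨tK C ξ, tH C ξ, r, d1, hint, d4, l2 r _ _ _ _ _ _ _ _ d1 d4 e4 fC0 a3,
      l2 r _ _ _ _ _ _ _ _ d1 d4 f4 fC1 (fKK' v hv)⟩, ?_⟩
    rw [← hint]
    exact hCK
  refine ⟨?_, ?_, ?_, iD, iE, fun h0 h1 v hv => (hw0K h0 h1 v hv).2, fun h0 _ => iG h0⟩
  · intro x hx
    obtain ⟨a1, a2, a3, a4⟩ := wf _ _ _ (hwx x hx)
    refine ⟨?_, ?_, ?_, ?_⟩
    · refine mkC (C := fst q) (h0 := snd q) (θ := r) ?_ qHis (l1 r _ _ qOb) (hlx x hx)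
      ext i
      exact ⟨fun hi => ZFSet.mem_inter.2 ⟨hi, qx x hx hi⟩, fun hi => (ZFSet.mem_inter.1 hi).1⟩
    · intro x' hx'
      by_cases hxx : x = x'
      · subst hxx
        refine mkC (C := fst (app F1 x)) (h0 := snd (app F1 x)) (θ := r) ?_ a4
          (l1 r _ _ a1) (l1 r _ _ a1)
        ext i
        exact ⟨fun hi => ZFSet.mem_inter.2 ⟨hi, hi⟩, fun hi => (ZFSet.mem_inter.1 hi).1⟩
      · exact mkC (C := fst q) (h0 := snd q) (θ := r) (hPts.d x hx x' hx' hxx).symm qHis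
          (hlx x hx) (hlx x' hx')
    · intro v hv
      obtain ⟨c1, c2, c3, c4⟩ := wf _ _ _ (hK v hv)
      exact mkC (C := tK (app F v) ξ) (h0 := tH (app F v) ξ) (θ := r) (iE x hx v hv).symm c4
        (fKx v hv x hx) (fKK' v hv)
    · intro h0 h1
      obtain ⟨b1, b2, b3, b4, b5⟩ := hv0 h0 h1
      obtain ⟨c1, c2, c3, c4⟩ := wf _ _ _ (hK v0 b1)
      refine mkC (C := tK (app F v0) ξ) (h0 := tH (app F v0) ξ) (θ := r) ?_ c4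
        (fKx v0 b1 x hx) b3
      rw [← b4]
      ext i
      constructor
      · intro hi
        obtain ⟨h3, h4⟩ := ZFSet.mem_inter.1 hi
        exact ZFSet.mem_inter.2 ⟨qx x hx h3, h4⟩
      · intro hi
        obtain ⟨h3, h4⟩ := ZFSet.mem_inter.1 hi
        exact ZFSet.mem_inter.2 ⟨iG h0 x hx (ZFSet.mem_inter.2 ⟨h4, h3⟩), h4⟩
  · intro v hv
    obtain ⟨c1, c2, c3, c4⟩ := wf _ _ _ (hK v hv)
    refine ⟨?_, ?_, ?_⟩
    · exact mkC (C := tK (app F v) ξ) (h0 := tH (app F v) ξ) (θ := r) (iD v hv).symm c4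
        (fKq v hv) (fKK' v hv)
    · intro v' hv'
      obtain ⟨⟨C, h0, θ, y1, y2, y3, y4⟩, -, -⟩ :=
        hY2 D κ b hA hb I F Z ξ0 v0 w0 hP v hv v' hv' (insert ξ ξ) hξ'
      rw [min_self] at y3 y4
      obtain ⟨d1, d2, d3, d4⟩ := wf _ _ _ (hK' v hv)
      obtain ⟨e1, e2, e3, e4⟩ := wf _ _ _ (hK' v' hv')
      have hC : C ∈ b.Ob := (hb.leO _ _ y3.le).1
      have hle : r ≤ b.rho D (insert ξ ξ) := by rw [hr0]; exact hlt.le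
      refine mkC (C := C) (h0 := hr h0 r) (θ := r) y1 (tru _ _ _ hC y2 r).1
        ((l4 _ _ r r r _ _ _ _ y2 d4 le_rfl le_rfl).2 (l3 _ _ _ _ _ _ hle y3))
        ((l4 _ _ r r r _ _ _ _ y2 e4 le_rfl le_rfl).2 (l3 _ _ _ _ _ _ hle y4))
    · intro h0 h1
      obtain ⟨⟨C, h00, θ, b1, b2, b3, b4, b5⟩, -⟩ := hw0K h0 h1 v hv
      exact mkC b2 b3 b4 b5
  · intro h0 h1
    obtain ⟨b1, b2, b3, b4, b5⟩ := hv0 h0 h1
    obtain ⟨c1, c2, c3, c4⟩ := wf _ _ _ (hK v0 b1)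
    exact mkC (C := tK (app F v0) ξ) (h0 := tH (app F v0) ξ) (θ := r) b4.symm c4
      (fKq v0 b1) b3

end SE.UZ
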