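import Pool.Agent.H38.UZ.TarZ

/-!
# Board uz_modules, module Y8a: the candidates (alpha) are admissible late entries
-/

set_option linter.unusedVariables false

open Ordinal Order Set
open scoped ZFSet

namespace SE.UZ

open SF

namespace Y8aAux

/-- a pair of reals of a face and an entry: contradiction with (T1) -/
theorem nores (D : Cx) (κ : V) (b : BS) (hA : Amb D κ) (hb : b.Ok D κ)
    (hW0 : T_W0) (hZR : T_ZR) (hZW : T_ZW)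
    (T : V) (hT : b.Tw D κ T) (ξ : V) (hξ : ξ ∈ κ)
    (ρ : V) (hρ : D.N ρ) (hρc : Cld D.L ρ) (hsub : b.u (tK T (insert ξ ξ)) ⊆ ρ)
    (G : V) (hG : D.Gn ρ G) (X y : V)
    (he : Ent (tH T (insert ξ ξ)) G X y (b.rho D ξ))
    (hX : RR D (b.u (tK T ξ)) G X) (hy : RR D (b.u (tK T ξ)) G y) : False := by
  obtain ⟨hz1, hz2, hz3, hz4, hz5, hz6, hz7, hz8⟩ := hZR D κ b hA hb
  have hξ' : insert ξ ξ ∈ κ := (hz2 ξ hξ).2.2
  obtain ⟨w1, w2, w3, w4, w5, w6⟩ := hW0 D κ b hA hb T hT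
  have hw := w4 (insert ξ ξ) hξ'
  have hwξ := w4 ξ hξ
  obtain ⟨a1, a2⟩ := hZW D κ b hA hb _ _ _ hw.2.1
  obtain ⟨c1, c2, c3, c4, c5, c6, c7, c8, c9, c10, c11, c12, c13⟩ := a2 ρ hρ hρc hsub G hG
  have hle : b.u (tK T ξ) ⊆ b.u (tK T (insert ξ ξ)) :=
    (w5 ξ hξ (insert ξ ξ) hξ' (fun z hz => ZFSet.mem_insert_iff.2 (Or.inr hz))).2
  obtain ⟨b1, b2⟩ := hZW D κ b hA hb _ _ _ hwξ.2.1
  obtain ⟨d1, d2⟩ := c9 (b.u (tK T ξ)) b1.2.2.2.2.1 hle b1.2.2.2.2.2.1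
  refine hT.t1 ξ hξ ξ hξ (insert ξ ξ) hξ' (fun z hz => hz)
    (ZFSet.mem_insert_iff.2 (Or.inl rfl)) (gs G (b.u (tK T (insert ξ ξ)))) c1 X y
    ((d1 X).1 hX) ((d1 y).1 hy) ((c4 X y _).1 he)

end Y8aAux

open Y8aAux in
theorem pf_Y8a (hY2 : T_Y2) (hY3 : T_Y3) (hW0 : T_W0) (hZR : T_ZR) (hZW : T_ZW) (hZE : T_ZE)
    (hLL : T_LL) (hPLW : T_PLW) (hPW2 : T_PW2) (hPHA : T_PHA) (hQRM : T_QRM) (hQRN : T_QRN) :
    T_Y8a := by
  intro D κ b hA hb I F Z ξ0 v0 w0 hP ξ hξ q hq Z' hAv I1 F1 hPts u hu G hG X y hQ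
  obtain ⟨hz1, hz2, hz3, hz4, hz5, hz6, hz7, hz8⟩ := hZR D κ b hA hb
  have hξ' : insert ξ ξ ∈ κ := (hz2 ξ hξ).2.2
  obtain ⟨-, hLs, hNr, -, hlt, hcn⟩ := hz6 ξ hξ
  obtain ⟨v, hv, hE⟩ := hQ
  have hTv := hP.t v hv
  have hok := hA.ok
  -- the world `u`
  obtain ⟨ua, ub⟩ := hZW D κ b hA hb _ _ _ hu.w.w
  obtain ⟨uOb, uObs, uCS, uH, uN, uTr, uCld, uNB, uNh, uHis, uCo⟩ := ua
  obtain ⟨u1, u2, u3, u4, u5, u6, u7, u8, u9, u10, u11, u12, u13⟩ :=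
    ub (b.u (fst u)) uN uCld (fun z hz => hz) G hG
  -- the world of the tower
  have wd : ∀ v' ∈ I, b.Wd D (b.rho D (insert ξ ξ)) (tK (app F v') (insert ξ ξ))
      (tH (app F v') (insert ξ ξ)) := fun v' hv' =>
    ((hW0 D κ b hA hb _ (hP.t v' hv')).2.2.2.1 (insert ξ ξ) hξ').2.1
  have lw : ∀ v' ∈ I, b.LW D (b.rho D ξ) (tK (app F v') (insert ξ ξ))
      (tH (app F v') (insert ξ ξ)) (fst u) (snd u) := fun v' hv' => hu.lt v' hv'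
  have sub : ∀ v' ∈ I, b.u (tK (app F v') (insert ξ ξ)) ⊆ b.u (fst u) := fun v' hv' =>
    (hb.leO _ _ (lw v' hv').le).2.2
  obtain ⟨ka, kb⟩ := hZW D κ b hA hb _ _ _ (wd v hv)
  obtain ⟨kOb, kObs, kCS, kH, kN, kTr, kCld, kNB, kNh, kHis, kCo⟩ := ka
  obtain ⟨k1, k2, k3, k4, k5, k6, k7, k8, k9, k10, k11, k12, k13⟩ :=
    kb (b.u (fst u)) uN uCld (sub v hv) G hG
  obtain ⟨hX, hy, hle⟩ := k3 X y _ hE
  obtain ⟨hnKb, hnPt⟩ := k12 X y _ hE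
  -- entries of the other towers
  have tr : ∀ v' ∈ I, RR D (b.u (tK (app F v') (insert ξ ξ))) G X → ∀ y' e,
      Ent (tH (app F v) (insert ξ ξ)) G X y' e ↔ Ent (tH (app F v') (insert ξ ξ)) G X y' e :=
    fun v' hv' hX' y' e => (hY2 D κ b hA hb I F Z ξ0 v0 w0 hP v hv v' hv' (insert ξ ξ) hξ').2.2
      (b.u (fst u)) uN uCld (sub v hv) (sub v' hv') G hG X hX hX' y' e
  refine ⟨?_, ?_, ?_, ?_, ?_, ?_⟩
  · rintro ⟨y', e, hE'⟩
    have he : e < b.rho D ξ := (u3 X y' e hE').2.2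
    obtain ⟨e1, e2⟩ := hZE D κ b hA hb _ _ _ _ _ _ _ kHis uHis (lw v hv)
    obtain ⟨f1, f2, f3, f4, f5, f6, f7, f8, f9⟩ := e2 (b.u (fst u)) uN uCld (fun z hz => hz) G hG
    have := (f4 X hX y' e he).2 hE'
    exact absurd (k6 X y y' _ _ hE this).2 (ne_of_gt he)
  · intro hKb
    have hctx : Ctx D κ b (b.rho D ξ) := ⟨hA, hb, hNr⟩
    obtain ⟨-, -, hPI, -, -, -⟩ := hLL D κ b _ hctx
    have hwk : b.Wd D (b.rho D ξ) (tK (app F v) (insert ξ ξ))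
        (hr (tH (app F v) (insert ξ ξ)) (b.rho D ξ)) :=
      (hPW2 D κ hA b hb).1 _ _ _ _ hlt.le (wd v hv)
    have hru : hr (snd u) (b.rho D ξ) = snd u :=
      ((hPHA D hok _ _ _ _ uN uCld uN uCld (fun z hz => hz) uHis).2.1 (b.rho D ξ)).2.2.1 le_rfl
    have hlw : b.LW D (b.rho D ξ) (tK (app F v) (insert ξ ξ))
        (hr (tH (app F v) (insert ξ ξ)) (b.rho D ξ)) (fst u) (snd u) := by
      have := ((hPLW D κ hA b hb).2.2.2.1 _ _ (b.rho D ξ) (b.rho D ξ) (b.rho D ξ) _ _ _ _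
        kHis uHis le_rfl le_rfl).2 (lw v hv)
      rwa [hru] at this
    exact hnKb (((hPI _ _ _ _ hwk hu.w.w hlw G hG X hX).1 y hy).2 hKb)
  · intro hPt
    exact hnPt hLs ((u13 _ kOb (sub v hv) X hX).1 hPt)
  · intro j hj hCo hSn
    have hYY := hY3 D κ b hA hb I F Z ξ0 v0 w0 hP ξ hξ q hq Z' hAv I1 F1 hPts _ rfl
    obtain ⟨y1, y2, y3, y4, y5, y6, y7⟩ := hYY
    -- a world `p` over which the pair is seen, with small intersection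
    have key : ∀ p, b.Wd D (b.rho D ξ) (fst p) (snd p) → b.u (fst p) ⊆ b.u (fst u) →
        j ∈ b.u (fst p) → b.u (fst p) ∩ b.u (tK (app F v) (insert ξ ξ)) ⊆
          b.u (tK (app F v) ξ) → False := by
      intro p hp hps hjp hint
      obtain ⟨pa, pb⟩ := hZW D κ b hA hb _ _ _ hp
      obtain ⟨pOb, pObs, pCS, pH, pN, pTr, pCld, pNB, pNh, pHis, pCo⟩ := pa
      obtain ⟨p1, p2, p3, p4, p5, p6, p7, p8, p9, p10, p11, p12, p13⟩ :=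
        pb (b.u (fst u)) uN uCld hps G hG
      obtain ⟨hX2, hy2⟩ := (p11 j hjp hCo X y).2.1 hSn
      have hX3 := hQRM D hok _ G _ _ uN uCld hG pN kN hps (sub v hv) pTr kTr X hX2 hX
      have hy3 := hQRM D hok _ G _ _ uN uCld hG pN kN hps (sub v hv) pTr kTr y hy2 hy
      -- monotonicity
      have hwξ := (hW0 D κ b hA hb _ hTv).2.2.2.1 ξ hξ
      obtain ⟨xa, xb⟩ := hZW D κ b hA hb _ _ _ hwξ.2.1
      obtain ⟨xOb, xObs, xCS, xH, xN, xTr, xCld, xNB, xNh, xHis, xCo⟩ := xa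
      have hKK : b.u (tK (app F v) ξ) ⊆ b.u (tK (app F v) (insert ξ ξ)) :=
        ((hW0 D κ b hA hb _ hTv).2.2.2.2.1 ξ hξ (insert ξ ξ) hξ'
          (fun z hz => ZFSet.mem_insert_iff.2 (Or.inr hz))).2
      have hsI : b.u (fst p) ∩ b.u (tK (app F v) (insert ξ ξ)) ⊆ b.u (fst u) := fun z hz =>
        hps (ZFSet.mem_inter.1 hz).1
      have hNI : D.N (b.u (fst p) ∩ b.u (tK (app F v) (insert ξ ξ))) := by
        exact (Tm.inter (Tm.var 0) (Tm.var 1)).1 D.N hok.zfc.toZFCm.toZFm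
          (cons (b.u (fst p)) fun _ => b.u (tK (app F v) (insert ξ ξ)))
          (In.cons (fun _ => kN) pN)
      have hTrI : Tr (b.u (fst p) ∩ b.u (tK (app F v) (insert ξ ξ))) := by
        intro i hi z hz
        obtain ⟨h1, h2⟩ := ZFSet.mem_inter.1 hi
        exact ZFSet.mem_inter.2 ⟨pTr i h1 hz, kTr i h2 hz⟩
      obtain ⟨-, -, -, -, -, -, -, n8, -⟩ := hQRN D hok _ G _ uN uCld hG hNI hsI hTrI
      have hX4 := n8 _ xN hint (fun z hz => sub v hv (hKK hz)) xTr X hX3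
      have hy4 := n8 _ xN hint (fun z hz => sub v hv (hKK hz)) xTr y hy3
      exact nores D κ b hA hb hW0 hZR hZW _ hTv ξ hξ _ uN uCld (sub v hv) G hG X y hE hX4 hy4
    rcases hu.m j hj with h | ⟨x, hx, h⟩ | ⟨v', hv', h⟩ | ⟨h0, h1, h⟩ | ⟨⟨e, he, hk⟩, -⟩
    · exact key q hq.w.w (hb.leO _ _ hu.lq.1.le).2.2 h (by rw [y4 v hv])
    · exact key (app F1 x) (hPts.p x hx).w.w (hb.leO _ _ (hu.lp x hx).le).2.2 h
        (by rw [y5 x hx v hv])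
    · obtain ⟨pa, pb⟩ := hZW D κ b hA hb _ _ _ (wd v' hv')
      obtain ⟨p1, p2, p3, p4, p5, p6, p7, p8, p9, p10, p11, p12, p13⟩ :=
        pb (b.u (fst u)) uN uCld (sub v' hv') G hG
      have hj2 := p11 j h hCo X y
      have hE2 := (tr v' hv' (hj2.2.1 hSn).1 y (b.rho D ξ)).1 hE
      refine hj2.2.2.2 _ hE2 hLs ?_ hSn
      rw [hcn]
      exact (hP.t v' hv').tm (insert ξ ξ) hξ' j h hCo
    · exact key w0 (by have := (hP.v h0).2.1.w; rwa [h1] at this)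
        (hb.leO _ _ (hu.lv h0 h1).le).2.2 h (y6 h0 h1 v hv)
    · have h3 : nS b.l = nS e := (show kd j = nS b.l from hCo).symm.trans hk
      have := nS_inj.1 h3
      omega
  · rintro y' ⟨v', hv', hE'⟩
    obtain ⟨pa, pb⟩ := hZW D κ b hA hb _ _ _ (wd v' hv')
    obtain ⟨p1, p2, p3, p4, p5, p6, p7, p8, p9, p10, p11, p12, p13⟩ :=
      pb (b.u (fst u)) uN uCld (sub v' hv') G hG
    have hE2 := (tr v' hv' (p3 X y' _ hE').1 y' _).2 hE'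
    exact (k6 X y' y _ _ hE2 hE).1
  · intro y' hQb
    exact hQb.nx v hv hX

end SE.UZ
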